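import Pool.Agent.W684.MADef
import Pool.Agent.Helper647.FU.J8

/-!
# Martin's axiom for partial orders and for preorders
-/

set_option autoImplicit false

open Set Cardinal

namespace Pool.Agent.Q212.PL

open Pool.Agent.W684 Pool.Agent.Helper647.FU

theorem ma_of_MA1 (h : MA1) : MartinAxiomAleph1 := by
  intro P _ _ hP 𝒟 h1 h2
  let π : P → Antisymmetrization P (· ≤ ·) := toAntisymmetrization (· ≤ ·)
  have hπ : ∀ p q : P, π p ≤ π q ↔ p ≤ q := fun p q =>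
    toAntisymmetrization_le_toAntisymmetrization_iff
  have hs : ∀ a : Antisymmetrization P (· ≤ ·), ∃ p, π p = a := fun a =>
    ⟨ofAntisymmetrization (· ≤ ·) a, toAntisymmetrization_ofAntisymmetrization (· ≤ ·) a⟩
  have : Nonempty (Antisymmetrization P (· ≤ ·)) := ⟨π (Classical.arbitrary P)⟩
  have hccc : CCC (Antisymmetrization P (· ≤ ·)) := by
    intro A hA
    choose s hs using hs
    have h3 : (s '' A).Countable := by
      apply hP
      rintro _ ⟨a, ha, rfl⟩ _ ⟨b, hb, rfl⟩ hne ⟨r, hr1, hr2⟩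
      refine hA a ha b hb (fun h => hne (by rw [h])) ⟨π r, ?_, ?_⟩
      · rw [← hs a]
        exact (hπ _ _).2 hr1
      · rw [← hs b]
        exact (hπ _ _).2 hr2
    refine Set.countable_of_injective_of_countable_image (f := s) ?_ h3
    intro a _ b _ hab
    rw [← hs a, ← hs b, hab]
  obtain ⟨G, hG1, hG2, hG3, hG4⟩ := h (Antisymmetrization P (· ≤ ·)) hccc
    ((fun D : Set P => π '' D) '' 𝒟) (mk_image_le.trans h1) (by
      rintro _ ⟨D, hD, rfl⟩ a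
      obtain ⟨p, rfl⟩ := hs a
      obtain ⟨q, hq, hqp⟩ := h2 D hD p
      exact ⟨π q, ⟨q, hq, rfl⟩, (hπ _ _).2 hqp⟩)
  refine ⟨π ⁻¹' G, ?_, fun p hp q hpq => hG2 _ hp _ ((hπ _ _).2 hpq), fun p hp q hq => ?_,
    fun D hD => ?_⟩
  · obtain ⟨a, ha⟩ := hG1
    obtain ⟨p, rfl⟩ := hs a
    exact ⟨p, ha⟩
  · obtain ⟨r, hr, h3, h4⟩ := hG3 _ hp _ hq
    obtain ⟨r, rfl⟩ := hs r
    exact ⟨r, hr, (hπ _ _).1 h3, (hπ _ _).1 h4⟩
  · obtain ⟨a, ha, p, hp, rfl⟩ := hG4 _ ⟨D, hD, rfl⟩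
    exact ⟨p, ha, hp⟩

theorem ma_of_PFA (h : PFA) : MartinAxiomAleph1 := ma_of_MA1 (J8.MA1_of_PFA h)

end Pool.Agent.Q212.PL
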