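import Pool.Agent.Q212.BL.Basic

/-!
# A family of `ℵ₁` slowly growing sequences, each of which codes all earlier ones
-/

set_option autoImplicit false

open Cardinal Set Filter Topology

namespace Pool.Agent.Q212.PL

open Pool.Agent.Q212.BL

/-- the code of the first `K` terms of `g` -/
def cd : ℕ → (ℕ → ℕ) → ℕ
  | 0, _ => 0
  | K + 1, g => Nat.pair (g 0) (cd K fun i => g (i + 1))

/-- the decoder of the term with number `k` -/
def dcd : ℕ → ℕ → ℕ
  | 0, v => (Nat.unpair v).1
  | k + 1, v => dcd k (Nat.unpair v).2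

theorem dcd_cd (K : ℕ) : ∀ (g : ℕ → ℕ) (k : ℕ), k < K → dcd k (cd K g) = g k := by
  induction K with
  | zero => exact fun g k hk => absurd hk (Nat.not_lt_zero k)
  | succ K ih =>
    intro g k hk
    cases k with
    | zero => simp [cd, dcd]
    | succ k =>
      show dcd k (Nat.unpair (Nat.pair (g 0) (cd K fun i => g (i + 1)))).2 = g (k + 1)
      rw [Nat.unpair_pair]
      exact ih (fun i => g (i + 1)) k (Nat.lt_of_succ_lt_succ hk)

theorem pair_mono {a b a' b' : ℕ} (h1 : a ≤ a') (h2 : b ≤ b') : Nat.pair a b ≤ Nat.pair a' b' := by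
  have e1 : Nat.pair a b ≤ Nat.pair a' b := by
    rcases h1.eq_or_lt with h | h
    · rw [h]
    · exact (Nat.pair_lt_pair_left b h).le
  have e2 : Nat.pair a' b ≤ Nat.pair a' b' := by
    rcases h2.eq_or_lt with h | h
    · rw [h]
    · exact (Nat.pair_lt_pair_right a' h).le
  exact e1.trans e2

/-- a bound for the codes -/
def cb : ℕ → ℕ → ℕ
  | 0, _ => 0
  | K + 1, s => Nat.pair s (cb K s)

theorem cd_le_cb (K s : ℕ) : ∀ g : ℕ → ℕ, (∀ i < K, g i ≤ s) → cd K g ≤ cb K s := by
  induction K with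
  | zero => exact fun g _ => le_rfl
  | succ K ih =>
    intro g hg
    exact pair_mono (hg 0 (Nat.succ_pos K)) (ih _ fun i hi => hg (i + 1) (Nat.succ_lt_succ hi))

theorem cb_mono_left (s : ℕ) : Monotone fun K => cb K s :=
  monotone_nat_of_le_succ fun _ => Nat.right_le_pair _ _

theorem cb_mono_right (K : ℕ) : Monotone (cb K) := by
  induction K with
  | zero => exact fun _ _ _ => le_rfl
  | succ K ih => exact fun s t hst => pair_mono hst (ih hst)

/-- a fast function -/
def T (s : ℕ) : ℕ := s + cb s s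

theorem le_T (s : ℕ) : s ≤ T s := Nat.le_add_right _ _

theorem T_mono : Monotone T := fun s t hst =>
  Nat.add_le_add hst ((cb_mono_left s hst).trans (cb_mono_right t hst))

theorem cd_le_T {K s : ℕ} {g : ℕ → ℕ} (hK : K ≤ s) (hg : ∀ i < K, g i ≤ s) : cd K g ≤ T s :=
  ((cd_le_cb K s g hg).trans (cb_mono_left s hK)).trans (Nat.le_add_left _ _)

/-- `h` grows very slowly -/
def Small (h : ℕ → ℕ) : Prop := ∀ j, ∀ᶠ m in atTop, T^[j] (h (m + j)) ≤ m

theorem Small.mono {h h' : ℕ → ℕ} (hh : Small h) (hle : ∀ m, h' m ≤ h m) : Small h' := fun j => by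
  filter_upwards [hh j] with m hm
  exact (T_mono.iterate j (hle _)).trans hm

theorem small_const (c : ℕ) : Small fun _ => c := fun _ => eventually_ge_atTop _

theorem exists_top (κ : ℕ) (v : ℕ → ℕ) :
    ∃ s, (s = κ ∨ ∃ i < κ, s = v i) ∧ κ ≤ s ∧ ∀ i < κ, v i ≤ s := by
  have hne : (insert κ ((Finset.range κ).image v)).Nonempty := ⟨κ, Finset.mem_insert_self _ _⟩
  refine ⟨(insert κ ((Finset.range κ).image v)).max' hne, ?_, ?_, fun i hi => ?_⟩
  · have h1 := Finset.max'_mem _ hne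
    rcases Finset.mem_insert.1 h1 with h2 | h2
    · exact Or.inl h2
    · obtain ⟨i, hi, h3⟩ := Finset.mem_image.1 h2
      exact Or.inr ⟨i, Finset.mem_range.1 hi, h3.symm⟩
  · exact Finset.le_max' _ _ (Finset.mem_insert_self _ _)
  · exact Finset.le_max' _ _ (Finset.mem_insert_of_mem
      (Finset.mem_image_of_mem v (Finset.mem_range.2 hi)))

theorem diag (g : ℕ → ℕ → ℕ) (hg : ∀ i, Small (g i)) :
    ∃ K : ℕ → ℕ, Tendsto K atTop atTop ∧ Small fun m => cd (K m) fun i => g i (m + 1) := by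
  have h1 : ∀ n, ∃ N, ∀ m, N ≤ m →
      (∀ j < n + 1, T^[j] n ≤ m) ∧ ∀ i < n + 1, ∀ j < n + 1, T^[j] (g i (m + j)) ≤ m := by
    intro n
    have e1 : ∀ᶠ m in atTop, ∀ j < n + 1, T^[j] n ≤ m :=
      (Set.Finite.eventually_all (finite_lt_nat (n + 1))).2 fun j _ => eventually_ge_atTop _
    have e2 : ∀ᶠ m in atTop, ∀ i < n + 1, ∀ j < n + 1, T^[j] (g i (m + j)) ≤ m :=
      (Set.Finite.eventually_all (finite_lt_nat (n + 1))).2 fun i _ =>
        (Set.Finite.eventually_all (finite_lt_nat (n + 1))).2 fun j _ => hg i j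
    exact eventually_atTop.1 (e1.and e2)
  choose N hN using h1
  let K : ℕ → ℕ := fun m => Nat.findGreatest (fun n => N n ≤ m / 2) m
  have hK : ∀ n m, n ≤ m → N n ≤ m / 2 → n ≤ K m := fun n m h2 h3 =>
    Nat.le_findGreatest (P := fun n => N n ≤ m / 2) h2 h3
  have hK' : Tendsto K atTop atTop := by
    rw [tendsto_atTop]
    intro n
    filter_upwards [eventually_ge_atTop (n + 2 * N n)] with m hm
    exact hK n m (by omega) (by omega)
  refine ⟨K, hK', fun j => ?_⟩
  filter_upwards [(tendsto_add_atTop_nat j).eventually (hK'.eventually_ge_atTop (j + 1)),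
    eventually_ge_atTop (j + 2 * N 0)] with m h2 h3
  have h4 : N (K (m + j)) ≤ (m + j) / 2 :=
    Nat.findGreatest_spec (P := fun n => N n ≤ (m + j) / 2) (Nat.zero_le (m + j)) (by omega)
  obtain ⟨h5, h6⟩ := hN (K (m + j)) m (by omega)
  obtain ⟨s, hs, hs1, hs2⟩ := exists_top (K (m + j)) fun i => g i (m + j + 1)
  have h7 : T^[j] (cd (K (m + j)) fun i => g i (m + j + 1)) ≤ T^[j + 1] s := by
    rw [Function.iterate_succ_apply]
    exact T_mono.iterate j (cd_le_T hs1 hs2)
  refine h7.trans ?_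
  rcases hs with h8 | ⟨i, hi, h8⟩
  · rw [h8]
    exact h5 (j + 1) (Nat.lt_succ_of_le h2)
  · rw [h8]
    exact h6 i (by omega) (j + 1) (Nat.lt_succ_of_le h2)

/-- slowly growing sequences with `f m ≤ m + 1` for all `m` -/
abbrev Seq : Type := {f : ℕ → ℕ // Small f ∧ ∀ m, f m ≤ m + 1}

theorem step (h : ℕ → Seq) : ∃ a : Seq, ∀ k, ∀ᶠ m in atTop, dcd k (a.1 m) = (h k).1 (m + 1) := by
  obtain ⟨K, hK, h1⟩ := diag (fun i => (h i).1) fun i => (h i).2.1
  have h2 : ∀ᶠ m in atTop, (cd (K m) fun i => (h i).1 (m + 1)) ≤ m := h1 0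
  refine ⟨⟨fun m => if (cd (K m) fun i => (h i).1 (m + 1)) ≤ m then
    (cd (K m) fun i => (h i).1 (m + 1)) else 0, h1.mono fun m => ?_, fun m => ?_⟩, fun k => ?_⟩
  · split_ifs
    · exact le_rfl
    · exact Nat.zero_le _
  · beta_reduce
    split_ifs with h3
    · exact h3.trans (Nat.le_succ m)
    · exact Nat.zero_le _
  · filter_upwards [h2, hK.eventually_gt_atTop k] with m h3 h4
    rw [if_pos h3]
    exact dcd_cd _ _ _ h4

/-- A family of slowly growing sequences, each of which codes all earlier ones and a real. -/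
theorem exists_family (x : W → ℕ → Bool) : ∃ a : W → Seq,
    (∀ η, ∀ᶠ m in atTop, dcd 0 ((a η).1 m) = (x η (m + 1)).toNat) ∧
    ∀ ξ η, ξ < η → ∃ k, ∀ᶠ m in atTop, dcd k ((a η).1 m) = (a ξ).1 (m + 1) := by
  choose e he using exists_enum
  choose st hst using step
  have hx : ∀ η, Small (fun m => (x η m).toNat) ∧ ∀ m, (x η m).toNat ≤ m + 1 := by
    intro η
    have h1 : ∀ m, (x η m).toNat ≤ 1 := fun m => Bool.toNat_le _
    exact ⟨(small_const 1).mono h1, fun m => (h1 m).trans (Nat.le_add_left 1 m)⟩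
  let F : ∀ η : W, (∀ ξ, ξ < η → Seq) → Seq := fun η IH => st fun k =>
    match k with
    | 0 => ⟨fun m => (x η m).toNat, hx η⟩
    | k + 1 => if h : e η k < η then IH (e η k) h else ⟨fun m => (x η m).toNat, hx η⟩
  let a : W → Seq := WellFoundedLT.fix F
  have ha : ∀ η, a η = F η fun ξ _ => a ξ := fun η => WellFoundedLT.fix_eq F η
  refine ⟨a, fun η => ?_, fun ξ η hξ => ?_⟩
  · rw [ha η]
    exact hst _ 0
  · obtain ⟨k, hk⟩ := he η ξ hξ.le
    refine ⟨k + 1, ?_⟩
    have h1 := hst (fun k => match k with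
      | 0 => (⟨fun m => (x η m).toNat, hx η⟩ : Seq)
      | k + 1 => if h : e η k < η then a (e η k) else ⟨fun m => (x η m).toNat, hx η⟩) (k + 1)
    have h2 : (if h : e η k < η then a (e η k) else (⟨fun m => (x η m).toNat, hx η⟩ : Seq)) =
        a ξ := by
      rw [dif_pos (show e η k < η by rw [hk]; exact hξ), hk]
    rw [ha η]
    filter_upwards [h1] with m h3
    rw [← h2]
    exact h3

end Pool.Agent.Q212.PL
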