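import Mathlib

/-!
# Finite partial maps with slopes between `0` and `1 / 2`
-/

set_option autoImplicit false

open Set Filter Topology

namespace Pool.Agent.Q212.PL

/-- `v` is to the right of `u` and the slope from `u` to `v` is between `0` and `1 / 2` -/
def R (u v : ℝ × ℝ) : Prop := u.1 < v.1 ∧ u.2 < v.2 ∧ 2 * (v.2 - u.2) < v.1 - u.1

/-- the slopes are between `0` and `1 / 2` -/
def Good (p : Set (ℝ × ℝ)) : Prop := ∀ u ∈ p, ∀ v ∈ p, u = v ∨ R u v ∨ R v u

/-- `w` can be added to `p` -/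
def Adm (p : Set (ℝ × ℝ)) (w : ℝ × ℝ) : Prop := ∀ u ∈ p, R u w ∨ R w u

theorem Good.insert {p : Set (ℝ × ℝ)} (hp : Good p) {w : ℝ × ℝ} (hw : Adm p w) :
    Good (insert w p) := by
  rintro u (rfl | hu) v (rfl | hv)
  · exact Or.inl rfl
  · exact Or.inr (hw v hv).symm
  · exact Or.inr (hw u hu)
  · exact hp u hu v hv

theorem isOpen_adm {p : Set (ℝ × ℝ)} (hp : p.Finite) : IsOpen {w | Adm p w} := by
  have h1 : {w | Adm p w} = ⋂ u ∈ p, ({w | R u w} ∪ {w | R w u}) := by
    ext w
    simp [Adm]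
  rw [h1]
  refine hp.isOpen_biInter fun u _ => IsOpen.union ?_ ?_
  · exact (isOpen_lt continuous_const continuous_fst).inter
      ((isOpen_lt continuous_const continuous_snd).inter
        (isOpen_lt (continuous_const.mul (continuous_snd.sub continuous_const))
          (continuous_fst.sub continuous_const)))
  · exact (isOpen_lt continuous_fst continuous_const).inter
      ((isOpen_lt continuous_snd continuous_const).inter
        (isOpen_lt (continuous_const.mul (continuous_const.sub continuous_snd))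
          (continuous_const.sub continuous_fst)))

theorem exists_ext {p : Set (ℝ × ℝ)} (hfin : p.Finite) {a b : ℝ} (hab : a ≤ b)
    (hp : ∀ u ∈ p, ∀ v ∈ p, u.1 < v.1 → a * (v.1 - u.1) ≤ v.2 - u.2 ∧ v.2 - u.2 ≤ b * (v.1 - u.1))
    (hp' : ∀ u ∈ p, ∀ v ∈ p, u.1 = v.1 → u.2 = v.2) :
    ∃ φ : ℝ → ℝ, (∀ s t, s ≤ t → a * (t - s) ≤ φ t - φ s ∧ φ t - φ s ≤ b * (t - s)) ∧
      ∀ u ∈ p, φ u.1 = u.2 := by
  rcases p.eq_empty_or_nonempty with h0 | h0
  · subst h0
    refine ⟨fun t => a * t, fun s t hst => ⟨by linarith, ?_⟩, by simp⟩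
    nlinarith
  obtain ⟨P, rfl⟩ := hfin.exists_finset_coe
  have hne : P.Nonempty := by simpa using h0
  let h : ℝ × ℝ → ℝ → ℝ := fun u t => u.2 + max (a * (t - u.1)) (b * (t - u.1))
  have h1 : ∀ u s t, s ≤ t → a * (t - s) ≤ h u t - h u s ∧ h u t - h u s ≤ b * (t - s) := by
    intro u s t hst
    have e1 : a * (t - s) ≤ b * (t - s) := mul_le_mul_of_nonneg_right hab (sub_nonneg.2 hst)
    have e2 := le_max_left (a * (s - u.1)) (b * (s - u.1))
    have e3 := le_max_right (a * (s - u.1)) (b * (s - u.1))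
    have e4 := le_max_left (a * (t - u.1)) (b * (t - u.1))
    have e5 := le_max_right (a * (t - u.1)) (b * (t - u.1))
    constructor
    · have : max (a * (s - u.1)) (b * (s - u.1)) ≤
          max (a * (t - u.1)) (b * (t - u.1)) - a * (t - s) := by
        refine max_le ?_ ?_
        · linarith [show a * (t - u.1) = a * (s - u.1) + a * (t - s) by ring]
        · linarith [show b * (t - u.1) = b * (s - u.1) + b * (t - s) by ring]
      show a * (t - s) ≤ u.2 + _ - (u.2 + _)
      linarith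
    · have : max (a * (t - u.1)) (b * (t - u.1)) ≤
          max (a * (s - u.1)) (b * (s - u.1)) + b * (t - s) := by
        refine max_le ?_ ?_
        · linarith [show a * (t - u.1) = a * (s - u.1) + a * (t - s) by ring]
        · linarith [show b * (t - u.1) = b * (s - u.1) + b * (t - s) by ring]
      show u.2 + _ - (u.2 + _) ≤ b * (t - s)
      linarith
  refine ⟨fun t => P.inf' hne fun u => h u t, fun s t hst => ⟨?_, ?_⟩, fun v hv => ?_⟩
  · obtain ⟨u, hu, hu'⟩ := Finset.exists_mem_eq_inf' hne fun u => h u t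
    have h2 : P.inf' hne (fun u => h u s) ≤ h u s := Finset.inf'_le _ hu
    have h3 := (h1 u s t hst).1
    beta_reduce
    rw [hu']
    linarith
  · obtain ⟨u, hu, hu'⟩ := Finset.exists_mem_eq_inf' hne fun u => h u s
    have h2 : P.inf' hne (fun u => h u t) ≤ h u t := Finset.inf'_le _ hu
    have h3 := (h1 u s t hst).2
    beta_reduce
    rw [hu']
    linarith
  · apply le_antisymm
    · have h2 : P.inf' hne (fun u => h u v.1) ≤ h v v.1 := Finset.inf'_le _ (by simpa using hv)
      have h3 : h v v.1 = v.2 := by simp [h]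
      exact h2.trans h3.le
    · refine Finset.le_inf' _ _ fun u hu => ?_
      have hu : u ∈ (P : Set (ℝ × ℝ)) := hu
      show v.2 ≤ u.2 + max (a * (v.1 - u.1)) (b * (v.1 - u.1))
      rcases lt_trichotomy u.1 v.1 with h4 | h4 | h4
      · have := (hp u hu v hv h4).2
        linarith [le_max_right (a * (v.1 - u.1)) (b * (v.1 - u.1))]
      · rw [hp' u hu v hv h4, h4]
        simp
      · have := (hp v hv u hu h4).1
        linarith [le_max_left (a * (v.1 - u.1)) (b * (v.1 - u.1)),
          show a * (v.1 - u.1) = - (a * (u.1 - v.1)) by ring]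

/-- a good finite set is part of the graph of a function with good graph -/
theorem exists_fun {p : Set (ℝ × ℝ)} (hfin : p.Finite) (hp : Good p) :
    ∃ φ : ℝ → ℝ, (∀ s t, s < t → R (s, φ s) (t, φ t)) ∧ ∀ u ∈ p, φ u.1 = u.2 := by
  have h1 : ∀ᶠ a in 𝓝[>] (0 : ℝ), ∀ u ∈ p, ∀ v ∈ p, R u v →
      a * (v.1 - u.1) ≤ v.2 - u.2 ∧ v.2 - u.2 ≤ (1 / 2 - a) * (v.1 - u.1) := by
    refine (Set.Finite.eventually_all hfin).2 fun u hu => ?_
    refine (Set.Finite.eventually_all hfin).2 fun v hv => ?_
    by_cases huv : R u v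
    · have e1 : ContinuousAt (fun a : ℝ => a * (v.1 - u.1)) 0 := by fun_prop
      have e2 : ContinuousAt (fun a : ℝ => (1 / 2 - a) * (v.1 - u.1)) 0 := by fun_prop
      have e3 : ∀ᶠ a in 𝓝 (0 : ℝ), a * (v.1 - u.1) < v.2 - u.2 :=
        e1.eventually_lt continuousAt_const (by simpa using huv.2.1)
      have e4 : ∀ᶠ a in 𝓝 (0 : ℝ), v.2 - u.2 < (1 / 2 - a) * (v.1 - u.1) :=
        continuousAt_const.eventually_lt e2 (by
          have := huv.2.2
          simp only [sub_zero]
          linarith)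
      filter_upwards [nhdsWithin_le_nhds e3, nhdsWithin_le_nhds e4] with a h3 h4 _
      exact ⟨h3.le, h4.le⟩
    · exact Eventually.of_forall fun a h => absurd h huv
  have h2 : ∀ᶠ a in 𝓝[>] (0 : ℝ), a < 1 / 4 :=
    nhdsWithin_le_nhds (eventually_lt_nhds (by norm_num))
  obtain ⟨a, ⟨h3, h4⟩, h5⟩ := ((h1.and h2).and self_mem_nhdsWithin).exists
  have h5 : 0 < a := h5
  obtain ⟨φ, h6, h7⟩ := exists_ext hfin (a := a) (b := 1 / 2 - a) (by linarith)
    (fun u hu v hv huv => by
      rcases hp u hu v hv with h | h | h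
      · rw [h] at huv
        exact absurd huv (lt_irrefl _)
      · exact h3 u hu v hv h
      · exact absurd h.1 huv.le.not_gt)
    (fun u hu v hv huv => by
      rcases hp u hu v hv with h | h | h
      · rw [h]
      · exact absurd huv h.1.ne
      · exact absurd huv h.1.ne')
  refine ⟨φ, fun s t hst => ⟨hst, ?_, ?_⟩, h7⟩
  · have := (h6 s t hst.le).1
    have e1 : 0 < a * (t - s) := mul_pos h5 (sub_pos.2 hst)
    show φ s < φ t
    linarith
  · have := (h6 s t hst.le).2
    have e1 : 0 < a * (t - s) := mul_pos h5 (sub_pos.2 hst)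
    show 2 * (φ t - φ s) < t - s
    linarith [show (1 / 2 - a) * (t - s) = (t - s) / 2 - a * (t - s) by ring]

theorem adm_fun {p : Set (ℝ × ℝ)} {φ : ℝ → ℝ} (h : ∀ s t, s < t → R (s, φ s) (t, φ t))
    (hp : ∀ u ∈ p, φ u.1 = u.2) {t : ℝ} (ht : ∀ u ∈ p, u.1 ≠ t) : Adm p (t, φ t) := by
  intro u hu
  have h1 : u = (u.1, φ u.1) := by
    rw [hp u hu]
  rcases lt_or_gt_of_ne (ht u hu) with h2 | h2
  · left
    rw [h1]
    exact h _ _ h2
  · right
    rw [h1]
    exact h _ _ h2

theorem continuous_fun {φ : ℝ → ℝ} (h : ∀ s t, s < t → R (s, φ s) (t, φ t)) : Continuous φ := by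
  have h1 : LipschitzWith 1 φ := by
    refine LipschitzWith.of_dist_le_mul fun s t => ?_
    rw [NNReal.coe_one, one_mul, Real.dist_eq, Real.dist_eq]
    rcases lt_trichotomy s t with h2 | h2 | h2
    · have h3 := h s t h2
      have h4 : φ s < φ t := h3.2.1
      have h5 : 2 * (φ t - φ s) < t - s := h3.2.2
      rw [abs_of_neg (by linarith), abs_of_neg (by linarith)]
      linarith
    · simp [h2]
    · have h3 := h t s h2
      have h4 : φ t < φ s := h3.2.1
      have h5 : 2 * (φ s - φ t) < s - t := h3.2.2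
      rw [abs_of_pos (by linarith), abs_of_pos (by linarith)]
      linarith
  exact h1.continuous

end Pool.Agent.Q212.PL
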