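import Pool.Agent.Q212.PL.Ext
import Pool.Agent.Q212.PL.Bridge
import Pool.Agent.W910.Hull.MATools

/-!
# Dense subgroups of the real line of size `ℵ₁` are not plastic under Martin's axiom
-/

set_option autoImplicit false

open Set Cardinal MeasureTheory Filter Topology

namespace Pool.Agent.Q212.PL

open Pool.Agent.W684

/-- Every non-expansive bijection of `M` onto itself is an isometry. -/
def Plastic (M : Type) [MetricSpace M] : Prop :=
  ∀ f : M → M, Function.Bijective f → (∀ x y, dist (f x) (f y) ≤ dist x y) → Isometry f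

/-- the measure of the part of `K` up to `x` -/
noncomputable def mu (K : Set ℝ) (x : ℝ) : ℝ := (volume (K ∩ Iic x)).toReal

variable {K : Set ℝ}

theorem mu_sub (hK : K ⊆ Icc 0 1) {x y : ℝ} (h : x ≤ y) :
    mu K x ≤ mu K y ∧ mu K y ≤ mu K x + (y - x) := by
  have hfin : ∀ z, volume (K ∩ Iic z) ≠ ⊤ := fun z =>
    ne_top_of_le_ne_top (by simp) (measure_mono (μ := volume) (inter_subset_left.trans hK))
  constructor
  · exact ENNReal.toReal_mono (hfin y) (measure_mono (inter_subset_inter_right _ (Iic_subset_Iic.2 h)))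
  · have h1 : K ∩ Iic y ⊆ (K ∩ Iic x) ∪ Ioc x y := by
      rintro z ⟨hz1, hz2⟩
      rcases le_or_gt z x with h3 | h3
      · exact Or.inl ⟨hz1, h3⟩
      · exact Or.inr ⟨h3, hz2⟩
    have h2 : volume (K ∩ Iic y) ≤ volume (K ∩ Iic x) + ENNReal.ofReal (y - x) := by
      refine (measure_mono h1).trans ((measure_union_le _ _).trans ?_)
      rw [Real.volume_Ioc]
    have h3 := ENNReal.toReal_mono (by simp [hfin x]) h2
    rwa [ENNReal.toReal_add (hfin x) ENNReal.ofReal_ne_top, ENNReal.toReal_ofReal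
      (sub_nonneg.2 h)] at h3

theorem continuous_mu (hK : K ⊆ Icc 0 1) : Continuous (mu K) := by
  have h1 : LipschitzWith 1 (mu K) := by
    refine LipschitzWith.of_dist_le_mul fun s t => ?_
    rw [NNReal.coe_one, one_mul, Real.dist_eq, Real.dist_eq]
    rcases le_total s t with h2 | h2
    · obtain ⟨h3, h4⟩ := mu_sub hK h2
      rw [abs_of_nonpos (by linarith), abs_of_nonpos (by linarith)]
      linarith
    · obtain ⟨h3, h4⟩ := mu_sub hK h2
      rw [abs_of_nonneg (by linarith), abs_of_nonneg (by linarith)]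
      linarith
  exact h1.continuous

theorem countable_mu (hK : IsClosed K) : (mu K '' Kᶜ).Countable := by
  refine (countable_range fun q : ℚ => mu K q).mono ?_
  rintro _ ⟨x, hx, rfl⟩
  obtain ⟨ε, hε, h1⟩ := Metric.isOpen_iff.1 hK.isOpen_compl x hx
  obtain ⟨q, hq1, hq2⟩ := exists_rat_btwn (show x < x + ε by linarith)
  refine ⟨q, ?_⟩
  show (volume (K ∩ Iic (q : ℝ))).toReal = (volume (K ∩ Iic x)).toReal
  congr 2
  ext z
  constructor
  · rintro ⟨h2, h3⟩
    refine ⟨h2, ?_⟩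
    by_contra h4
    refine h1 ?_ h2
    rw [Metric.mem_ball, Real.dist_eq, abs_of_pos (sub_pos.2 (not_le.1 h4))]
    have h3 : z ≤ q := h3
    linarith
  · rintro ⟨h2, h3⟩
    exact ⟨h2, le_trans (show z ≤ x from h3) hq1.le⟩

/-- the conditions: finite good sets of pairs from `M` and `D` -/
def Cond (M D : Set ℝ) : Type := {p : Set (ℝ × ℝ) // p.Finite ∧ p ⊆ M ×ˢ D ∧ Good p}

instance (M D : Set ℝ) : Preorder (Cond M D) where
  le p q := q.1 ⊆ p.1
  le_refl p := Subset.rfl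
  le_trans p q r h1 h2 := Subset.trans h2 h1

instance (M D : Set ℝ) : Nonempty (Cond M D) :=
  ⟨⟨∅, finite_empty, empty_subset _, by rintro u ⟨⟩⟩⟩

theorem cond_ccc {M D : Set ℝ} (hM : M.Countable) (hD : D.Countable) : IsCCC (Cond M D) := by
  intro A _
  have h1 : (Subtype.val '' A : Set (Set (ℝ × ℝ))).Countable := by
    refine (Set.countable_ofPred_finite_subset (hM.prod hD)).mono ?_
    rintro _ ⟨p, _, rfl⟩
    exact ⟨p.2.1, p.2.2.1⟩
  exact Set.countable_of_injective_of_countable_image Subtype.val_injective.injOn h1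

theorem exists_map (hMA : MartinAxiomAleph1) (G : AddSubgroup ℝ) (hd : Dense (G : Set ℝ))
    (hG : #G ≤ ℵ₁) : ∃ f : G → G, Function.Bijective f ∧ (∀ x y, dist (f x) (f y) ≤ dist x y) ∧
      ¬ Isometry f := by
  -- a compact set of positive measure which is disjoint from `G`
  have hnull : volume (G : Set ℝ) = 0 := by
    have h1 := Pool.Agent.W910.Hull.null_iUnion hMA hG (fun x : G => {(x : ℝ)}) (by simp)
    refine measure_mono_null ?_ h1
    intro x hx
    exact mem_iUnion.2 ⟨⟨x, hx⟩, rfl⟩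
  obtain ⟨U, hU1, hU2, hU3⟩ := Set.exists_isOpen_lt_of_lt (μ := volume) (G : Set ℝ) 1
    (by rw [hnull]; norm_num)
  let K : Set ℝ := Icc 0 1 \ U
  have hKc : IsClosed K := isClosed_Icc.sdiff hU2
  have hK1 : K ⊆ Icc 0 1 := sdiff_subset
  have hKG : ∀ x ∈ G, x ∉ K := fun x hx h => h.2 (hU1 hx)
  have hKpos : 0 < (volume K).toReal := by
    have h1 : volume K ≠ 0 := by
      intro h0
      have h2 : volume (Icc (0 : ℝ) 1) ≤ volume K + volume U := by
        refine (measure_mono ?_).trans (measure_union_le K U)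
        intro x hx
        by_cases h : x ∈ U
        · exact Or.inr h
        · exact Or.inl ⟨hx, h⟩
      rw [h0, zero_add, Real.volume_Icc] at h2
      norm_num at h2
      exact absurd hU3 (not_lt.2 h2)
    have h2 : volume K ≠ ⊤ := ne_top_of_le_ne_top (by simp) (measure_mono (μ := volume) hK1)
    exact ENNReal.toReal_pos h1 h2
  have hmu := continuous_mu hK1
  have hKd : Dense Kᶜ := hd.mono fun x hx => hKG x hx
  obtain ⟨D, hD1, hD2, hD3⟩ := hd.exists_countable_dense_subset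
  let M : Set ℝ := mu K '' Kᶜ
  have hM : M.Countable := countable_mu hKc
  -- the dense sets
  have hdense1 : ∀ (γ : G) (p : Cond M D), ∃ q : Cond M D, q ≤ p ∧ ∃ u ∈ q.1,
      (γ : ℝ) + u.2 ∉ K ∧ mu K (γ + u.2) = u.1 := by
    intro γ p
    obtain ⟨φ, h1, h2⟩ := exists_fun p.2.1 p.2.2.2
    have hφ := continuous_fun h1
    have hmono : ∀ s t, s ≤ t → φ s ≤ φ t := fun s t hst => by
      rcases hst.eq_or_lt with h | h
      · rw [h]
      · exact (h1 s t h).2.1.le
    have hb : ∀ x, 0 ≤ mu K x ∧ mu K x ≤ (volume K).toReal := fun x =>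
      ⟨ENNReal.toReal_nonneg, ENNReal.toReal_mono
        (ne_top_of_le_ne_top (by simp) (measure_mono (μ := volume) hK1))
        (measure_mono inter_subset_left)⟩
    obtain ⟨x, hx⟩ : ∃ x, x - φ (mu K x) = γ := by
      have h3 : Continuous fun x => x - φ (mu K x) := continuous_id.sub (hφ.comp hmu)
      refine mem_range_of_exists_le_of_exists_ge h3 ⟨γ + φ 0, ?_⟩
        ⟨γ + φ (volume K).toReal, ?_⟩
      · have := hmono _ _ (hb (γ + φ 0)).1
        linarith
      · have := hmono _ _ (hb (γ + φ (volume K).toReal)).2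
        linarith
    by_cases hc : ∃ u ∈ p.1, u.1 = mu K x
    · obtain ⟨u, hu, hu1⟩ := hc
      have h3 : (γ : ℝ) + u.2 = x := by
        rw [← h2 u hu, hu1]
        linarith
      refine ⟨p, le_rfl, u, hu, hKG _ (G.add_mem γ.2 (hD1 (p.2.2.1 hu).2)), ?_⟩
      rw [h3, hu1]
    · push Not at hc
      have h3 := adm_fun h1 h2 hc
      have h4 : ∀ᶠ y in 𝓝 x, Adm p.1 (mu K y, y - γ) := by
        have h5 : Continuous fun y => (mu K y, y - (γ : ℝ)) :=
          hmu.prodMk (continuous_id.sub continuous_const)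
        refine (h5.tendsto x).eventually ((isOpen_adm p.2.1).mem_nhds ?_)
        show Adm p.1 (mu K x, x - γ)
        rw [show x - (γ : ℝ) = φ (mu K x) by linarith]
        exact h3
      obtain ⟨V, hV1, hV2, hV3⟩ := eventually_nhds_iff.1 h4
      obtain ⟨y, hy1, hy2⟩ := hKd.inter_open_nonempty V hV2 ⟨x, hV3⟩
      have h5 : Continuous fun d : ℝ => (γ : ℝ) + d := continuous_const.add continuous_id
      obtain ⟨d, hd1, hd2⟩ := hD3.inter_open_nonempty ((fun d : ℝ => (γ : ℝ) + d) ⁻¹' (V ∩ Kᶜ))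
        ((hV2.inter hKc.isOpen_compl).preimage h5) ⟨y - γ, by
          show (γ : ℝ) + (y - γ) ∈ V ∩ Kᶜ
          rw [add_sub_cancel]
          exact ⟨hy1, hy2⟩⟩
      have h6 := hV1 _ hd1.1
      rw [add_sub_cancel_left] at h6
      exact ⟨⟨insert (mu K (γ + d), d) p.1, p.2.1.insert _,
        insert_subset ⟨⟨_, hd1.2, rfl⟩, hd2⟩ p.2.2.1, p.2.2.2.insert h6⟩, subset_insert _ _, _,
        mem_insert _ _, hd1.2, rfl⟩
  have hdense2 : ∀ (m : M) (p : Cond M D), ∃ q : Cond M D, q ≤ p ∧ ∃ u ∈ q.1, u.1 = m := by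
    intro m p
    by_cases hc : ∃ u ∈ p.1, u.1 = m
    · exact ⟨p, le_rfl, hc⟩
    push Not at hc
    obtain ⟨φ, h1, h2⟩ := exists_fun p.2.1 p.2.2.2
    have h3 := adm_fun h1 h2 hc
    have h4 : ∀ᶠ s in 𝓝 (φ m), Adm p.1 ((m : ℝ), s) := by
      have h5 : Continuous fun s : ℝ => ((m : ℝ), s) := continuous_const.prodMk continuous_id
      exact (h5.tendsto (φ m)).eventually ((isOpen_adm p.2.1).mem_nhds h3)
    obtain ⟨V, hV1, hV2, hV3⟩ := eventually_nhds_iff.1 h4
    obtain ⟨d, hd1, hd2⟩ := hD3.inter_open_nonempty V hV2 ⟨_, hV3⟩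
    exact ⟨⟨insert ((m : ℝ), d) p.1, p.2.1.insert _, insert_subset ⟨m.2, hd2⟩ p.2.2.1,
      p.2.2.2.insert (hV1 d hd1)⟩, subset_insert _ _, _, mem_insert _ _, rfl⟩
  obtain ⟨Γ, -, -, hΓ, hΓD⟩ := Pool.Agent.W910.Hull.ma_indexed hMA (cond_ccc hM hD2)
    (ι := G ⊕ M) (by
      rw [mk_sum, lift_id, lift_id]
      refine add_le_of_le aleph0_lt_aleph_one.le hG ?_
      exact (hM.le_aleph0).trans aleph0_lt_aleph_one.le)
    (fun i => Sum.elim (fun γ : G => {q : Cond M D | ∃ u ∈ q.1,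
      (γ : ℝ) + u.2 ∉ K ∧ mu K (γ + u.2) = u.1}) (fun m : M => {q | ∃ u ∈ q.1, u.1 = m}) i) (by
      rintro (γ | m) p
      · obtain ⟨q, h1, h2⟩ := hdense1 γ p
        exact ⟨q, h2, h1⟩
      · obtain ⟨q, h1, h2⟩ := hdense2 m p
        exact ⟨q, h2, h1⟩)
  let Φ : Set (ℝ × ℝ) := {u | ∃ q ∈ Γ, u ∈ q.1}
  have hΦ : Good Φ := by
    rintro u ⟨q, hq, hu⟩ v ⟨q', hq', hv⟩
    obtain ⟨r, hr, h1, h2⟩ := hΓ q hq q' hq'
    exact r.2.2.2 u (h1 hu) v (h2 hv)
  have hΦD : ∀ u ∈ Φ, u.2 ∈ D := by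
    rintro u ⟨q, hq, hu⟩
    exact (q.2.2.1 hu).2
  have hΦu : ∀ u ∈ Φ, ∀ v ∈ Φ, u.1 = v.1 → u.2 = v.2 := by
    intro u hu v hv huv
    rcases hΦ u hu v hv with h | h | h
    · rw [h]
    · exact absurd huv h.1.ne
    · exact absurd huv h.1.ne'
  have hΦM : ∀ m : M, ∃ s, ((m : ℝ), s) ∈ Φ := by
    intro m
    obtain ⟨q, hq, u, hu, hum⟩ := hΓD (Sum.inr m)
    refine ⟨u.2, q, hq, ?_⟩
    rw [← hum]
    exact hu
  choose g hg using hΦM
  let m : G → M := fun x => ⟨mu K x, x, hKG x x.2, rfl⟩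
  let f : G → G := fun x => ⟨x - g (m x), G.sub_mem x.2 (hD1 (hΦD _ (hg (m x))))⟩
  have hf : ∀ x, (f x : ℝ) = x - g (m x) := fun x => rfl
  have key : ∀ x y : G, (x : ℝ) < y → (f x : ℝ) < f y ∧ (f y : ℝ) - f x ≤ y - x ∧
      (mu K x < mu K y → (f y : ℝ) - f x < y - x) := by
    intro x y hxy
    obtain ⟨h1, h2⟩ := mu_sub hK1 hxy.le
    rcases h1.eq_or_lt with h3 | h3
    · have h4 : g (m x) = g (m y) := hΦu _ (hg (m x)) _ (hg (m y)) h3
      rw [hf, hf, h4]
      exact ⟨by linarith, by linarith, fun h => absurd h3 h.ne⟩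
    · rcases hΦ _ (hg (m x)) _ (hg (m y)) with h | h | h
      · have h5 : mu K x = mu K y := congrArg Prod.fst h
        exact absurd h5 h3.ne
      · have h5 : g (m x) < g (m y) := h.2.1
        have h6 : 2 * (g (m y) - g (m x)) < mu K y - mu K x := h.2.2
        rw [hf, hf]
        exact ⟨by linarith, by linarith, fun _ => by linarith⟩
      · exact absurd (show mu K y < mu K x from h.1) h3.not_gt
  have hdist : ∀ x y : G, (x : ℝ) < y → dist (f x) (f y) = f y - f x ∧ dist x y = y - x := by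
    intro x y hxy
    rw [Subtype.dist_eq, Subtype.dist_eq, Real.dist_eq, Real.dist_eq, abs_sub_comm,
      abs_of_pos (sub_pos.2 (key x y hxy).1), abs_sub_comm, abs_of_pos (sub_pos.2 hxy)]
    exact ⟨rfl, rfl⟩
  refine ⟨f, ⟨?_, ?_⟩, ?_, ?_⟩
  · intro x y hxy
    rcases lt_trichotomy (x : ℝ) y with h | h | h
    · exact absurd (congrArg Subtype.val hxy) (key x y h).1.ne
    · exact Subtype.ext h
    · exact absurd (congrArg Subtype.val hxy) (key y x h).1.ne'
  · intro γ
    obtain ⟨q, hq, u, hu, h1, h2⟩ := hΓD (Sum.inl γ)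
    have hu' : u ∈ Φ := ⟨q, hq, hu⟩
    let x : G := ⟨(γ : ℝ) + u.2, G.add_mem γ.2 (hD1 (hΦD u hu'))⟩
    refine ⟨x, Subtype.ext ?_⟩
    have h3 : g (m x) = u.2 := hΦu _ (hg (m x)) _ hu' h2
    rw [hf, h3]
    show (γ : ℝ) + u.2 - u.2 = γ
    ring
  · intro x y
    rcases lt_trichotomy (x : ℝ) y with h | h | h
    · rw [(hdist x y h).1, (hdist x y h).2]
      exact (key x y h).2.1
    · rw [Subtype.ext h]
      simp
    · rw [dist_comm (f x), dist_comm x, (hdist y x h).1, (hdist y x h).2]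
      exact (key y x h).2.1
  · intro hiso
    obtain ⟨a, ha1, ha2⟩ := hd.inter_open_nonempty (Iio 0) isOpen_Iio ⟨-1, by norm_num⟩
    obtain ⟨b, hb1, hb2⟩ := hd.inter_open_nonempty (Ioi 1) isOpen_Ioi ⟨2, by norm_num⟩
    have ha1 : a < 0 := ha1
    have hb1 : 1 < b := hb1
    have h1 : mu K a = 0 := by
      have : K ∩ Iic a = ∅ := by
        ext z
        simp only [mem_inter_iff, mem_Iic, mem_empty_iff_false, iff_false, not_and, not_le]
        exact fun hz => ha1.trans_le (hK1 hz).1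
      unfold mu
      rw [this]
      simp
    have h2 : mu K b = (volume K).toReal := by
      have : K ∩ Iic b = K := inter_eq_left.2 fun z hz => (hK1 hz).2.trans hb1.le
      unfold mu
      rw [this]
    have h3 := (key ⟨a, ha2⟩ ⟨b, hb2⟩ (by show a < b; linarith)).2.2 (by
      show mu K a < mu K b
      rw [h1, h2]
      exact hKpos)
    have h4 := hdist ⟨a, ha2⟩ ⟨b, hb2⟩ (by show a < b; linarith)
    rw [← h4.1, ← h4.2, hiso.dist_eq] at h3
    exact lt_irrefl _ h3

end Pool.Agent.Q212.PL
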