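import Mathlib

/-!
# Real numbers with very sparse digits
-/

set_option autoImplicit false

open Set Filter Topology

namespace Pool.Agent.Q212.PL

variable (δ : ℝ → ℝ)

/-- the scale -/
noncomputable def sc : ℕ → ℝ
  | 0 => 1
  | m + 1 => min (δ (sc m)) (sc m) / (8 * ((m : ℝ) + 3))

variable {δ}

theorem sc_pos (hδ : ∀ t, 0 < t → 0 < δ t) (m : ℕ) : 0 < sc δ m := by
  induction m with
  | zero => exact zero_lt_one
  | succ m ih =>
    show 0 < min (δ (sc δ m)) (sc δ m) / (8 * ((m : ℝ) + 3))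
    exact div_pos (lt_min (hδ _ ih) ih) (by positivity)

theorem sc_succ (hδ : ∀ t, 0 < t → 0 < δ t) (m : ℕ) :
    ((m : ℝ) + 2) * sc δ (m + 1) ≤ min (δ (sc δ m)) (sc δ m) / 8 := by
  have h1 := sc_pos hδ m
  have h2 : 0 < min (δ (sc δ m)) (sc δ m) := lt_min (hδ _ h1) h1
  show ((m : ℝ) + 2) * (min (δ (sc δ m)) (sc δ m) / (8 * ((m : ℝ) + 3))) ≤ _
  have h3 : (0 : ℝ) ≤ m := Nat.cast_nonneg m
  rw [← mul_div_assoc, div_le_div_iff₀ (by positivity) (by norm_num)]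
  nlinarith

theorem sc_le (hδ : ∀ t, 0 < t → 0 < δ t) (m : ℕ) :
    ((m : ℝ) + 1) * sc δ m ≤ (1 / 8) ^ m := by
  induction m with
  | zero => simp [sc]
  | succ m ih =>
    have h1 := sc_succ hδ m
    have h2 := sc_pos hδ m
    have h3 : min (δ (sc δ m)) (sc δ m) ≤ sc δ m := min_le_right _ _
    have h4 : (0 : ℝ) ≤ m := Nat.cast_nonneg m
    rw [pow_succ]
    push_cast
    nlinarith

theorem sc_tail (hδ : ∀ t, 0 < t → 0 < δ t) (m i : ℕ) :
    (((i + (m + 1) : ℕ) : ℝ) + 1) * sc δ (i + (m + 1)) ≤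
      ((m : ℝ) + 2) * sc δ (m + 1) * (1 / 8) ^ i := by
  induction i with
  | zero =>
    rw [zero_add]
    push_cast
    linarith
  | succ i ih =>
    have h1 := sc_succ hδ (i + (m + 1))
    have h2 := sc_pos hδ (i + (m + 1))
    have h3 : min (δ (sc δ (i + (m + 1)))) (sc δ (i + (m + 1))) ≤ sc δ (i + (m + 1)) :=
      min_le_right _ _
    have h4 : (0 : ℝ) ≤ ((i + (m + 1) : ℕ) : ℝ) := Nat.cast_nonneg _
    rw [show i + 1 + (m + 1) = i + (m + 1) + 1 by ring, pow_succ]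
    have h5 : (((i + (m + 1) + 1 : ℕ) : ℝ) + 1) = ((i + (m + 1) : ℕ) : ℝ) + 2 := by
      push_cast
      ring
    rw [h5]
    nlinarith

/-- the number with the digits `a m` -/
noncomputable def rl (δ : ℝ → ℝ) (a : ℕ → ℕ) : ℝ := ∑' m, (a m : ℝ) * sc δ m

theorem summable_rl (hδ : ∀ t, 0 < t → 0 < δ t) {a : ℕ → ℕ} (ha : ∀ m, a m ≤ m + 1) :
    Summable fun m => (a m : ℝ) * sc δ m := by
  refine Summable.of_nonneg_of_le (fun m => mul_nonneg (Nat.cast_nonneg _) (sc_pos hδ m).le)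
    (fun m => ?_) (summable_geometric_of_lt_one (r := 1 / 8) (by norm_num) (by norm_num))
  refine le_trans (mul_le_mul_of_nonneg_right ?_ (sc_pos hδ m).le) (sc_le hδ m)
  exact_mod_cast ha m

theorem rl_sub (hδ : ∀ t, 0 < t → 0 < δ t) {a a' : ℕ → ℕ} (ha : ∀ m, a m ≤ m + 1)
    (ha' : ∀ m, a' m ≤ m + 1) (m : ℕ) (h : ∀ j < m, a j = a' j) :
    |rl δ a - rl δ a' - ((a m : ℝ) - a' m) * sc δ m| ≤ min (δ (sc δ m)) (sc δ m) / 7 := by
  let d : ℕ → ℝ := fun j => (a j : ℝ) * sc δ j - (a' j : ℝ) * sc δ j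
  have h1 : Summable d := (summable_rl hδ ha).sub (summable_rl hδ ha')
  have h2 : rl δ a - rl δ a' = ∑' j, d j :=
    ((summable_rl hδ ha).tsum_sub (summable_rl hδ ha')).symm
  have h3 := h1.sum_add_tsum_nat_add (m + 1)
  have h4 : ∑ j ∈ Finset.range (m + 1), d j = ((a m : ℝ) - a' m) * sc δ m := by
    rw [Finset.sum_range_succ, Finset.sum_eq_zero fun j hj => ?_, zero_add]
    · show (a m : ℝ) * sc δ m - (a' m : ℝ) * sc δ m = _
      ring
    · show (a j : ℝ) * sc δ j - (a' j : ℝ) * sc δ j = 0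
      rw [h j (Finset.mem_range.1 hj), sub_self]
  rw [h2, ← h3, h4, add_sub_cancel_left]
  have h5 : HasSum (fun i : ℕ => ((m : ℝ) + 2) * sc δ (m + 1) * (1 / 8) ^ i)
      (((m : ℝ) + 2) * sc δ (m + 1) * (1 - 1 / 8)⁻¹) :=
    (hasSum_geometric_of_lt_one (by norm_num) (by norm_num)).mul_left _
  have h6 := tsum_of_norm_bounded (f := fun i => d (i + (m + 1))) h5 fun i => by
    refine le_trans ?_ (sc_tail hδ m i)
    show ‖(a (i + (m + 1)) : ℝ) * sc δ (i + (m + 1)) - (a' (i + (m + 1)) : ℝ) *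
      sc δ (i + (m + 1))‖ ≤ _
    rw [← sub_mul, norm_mul, Real.norm_of_nonneg (sc_pos hδ _).le, Real.norm_eq_abs]
    refine mul_le_mul_of_nonneg_right ?_ (sc_pos hδ _).le
    have e1 : (a (i + (m + 1)) : ℝ) ≤ ((i + (m + 1) : ℕ) : ℝ) + 1 := by
      exact_mod_cast ha (i + (m + 1))
    have e2 : (a' (i + (m + 1)) : ℝ) ≤ ((i + (m + 1) : ℕ) : ℝ) + 1 := by
      exact_mod_cast ha' (i + (m + 1))
    have e3 : (0 : ℝ) ≤ a (i + (m + 1)) := Nat.cast_nonneg _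
    have e4 : (0 : ℝ) ≤ a' (i + (m + 1)) := Nat.cast_nonneg _
    rw [abs_le]
    constructor <;> linarith
  rw [Real.norm_eq_abs] at h6
  refine h6.trans ?_
  have h7 := sc_succ hδ m
  rw [show (1 - 1 / 8 : ℝ)⁻¹ = 8 / 7 by norm_num]
  linarith

theorem rl_close (hδ : ∀ t, 0 < t → 0 < δ t) {a a' : ℕ → ℕ} (ha : ∀ m, a m ≤ m + 1)
    (ha' : ∀ m, a' m ≤ m + 1) (m : ℕ) (h : ∀ j ≤ m, a j = a' j) :
    |rl δ a - rl δ a'| ≤ min (δ (sc δ m)) (sc δ m) / 7 := by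
  have h1 := rl_sub hδ ha ha' m fun j hj => h j hj.le
  rwa [h m le_rfl, sub_self, zero_mul, sub_zero] at h1

theorem rl_far (hδ : ∀ t, 0 < t → 0 < δ t) {a a' : ℕ → ℕ} (ha : ∀ m, a m ≤ m + 1)
    (ha' : ∀ m, a' m ≤ m + 1) (m : ℕ) (h : ∀ j < m, a j = a' j) (hm : a m ≠ a' m) :
    sc δ m / 2 < |rl δ a - rl δ a'| := by
  have h1 := rl_sub hδ ha ha' m h
  have h2 := sc_pos hδ m
  have h3 : min (δ (sc δ m)) (sc δ m) ≤ sc δ m := min_le_right _ _
  have h4 : 1 ≤ |(a m : ℝ) - a' m| := by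
    have e1 : (a m : ℤ) - a' m ≠ 0 := by
      intro e
      apply hm
      omega
    have e2 : 1 ≤ |(a m : ℤ) - a' m| := Int.one_le_abs e1
    exact_mod_cast e2
  have h5 : sc δ m ≤ |((a m : ℝ) - a' m) * sc δ m| := by
    rw [abs_mul, abs_of_pos h2]
    nlinarith
  have h6 : |((a m : ℝ) - a' m) * sc δ m| ≤ |rl δ a - rl δ a'| +
      |rl δ a - rl δ a' - ((a m : ℝ) - a' m) * sc δ m| := by
    have := abs_sub_abs_le_abs_sub (((a m : ℝ) - a' m) * sc δ m) (rl δ a - rl δ a')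
    rw [abs_sub_comm (((a m : ℝ) - a' m) * sc δ m) (rl δ a - rl δ a')] at this
    linarith
  linarith

theorem rl_injective (hδ : ∀ t, 0 < t → 0 < δ t) {a a' : ℕ → ℕ} (ha : ∀ m, a m ≤ m + 1)
    (ha' : ∀ m, a' m ≤ m + 1) (h : rl δ a = rl δ a') : a = a' := by
  classical
  by_contra hne
  have hex : ∃ m, a m ≠ a' m := by
    by_contra hcon
    push Not at hcon
    exact hne (funext hcon)
  have h1 := rl_far hδ ha ha' (Nat.find hex) (fun j hj => by
    have := Nat.find_min hex hj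
    push Not at this
    exact this) (Nat.find_spec hex)
  rw [h, sub_self, abs_zero] at h1
  have h2 := sc_pos hδ (Nat.find hex)
  linarith

end Pool.Agent.Q212.PL
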