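import Pool.Agent.Q212.PL.Code
import Pool.Agent.Q212.PL.Real

/-!
# A dense set of `ℵ₁` real numbers without nontrivial injections of a given modulus
-/

set_option autoImplicit false

open Cardinal Set Filter Topology

namespace Pool.Agent.Q212.PL

open Pool.Agent.Q212.BL

/-- An injection of a well-ordered set into itself moves only countably many points if only
countably many points are below their images. -/
theorem fixed_of_le {I : Type} [LinearOrder I] [WellFoundedLT I] (G : I → I)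
    (hG : Function.Injective G) (hZ : {ξ | ξ < G ξ}.Countable) :
    {ξ | G ξ ≠ ξ}.Countable := by
  have h1 : {ξ | ∃ n : ℕ, G^[n] ξ ∈ {ξ | ξ < G ξ}}.Countable := by
    have h2 : {ξ | ∃ n : ℕ, G^[n] ξ ∈ {ξ | ξ < G ξ}} = ⋃ n : ℕ, G^[n] ⁻¹' {ξ | ξ < G ξ} := by
      ext ξ
      simp
    rw [h2]
    exact countable_iUnion fun n => hZ.preimage (hG.iterate n)
  refine h1.mono fun ξ hξ => ?_
  by_contra hcon
  have h3 : ∀ ξ, (¬ ∃ n : ℕ, G^[n] ξ ∈ {ξ | ξ < G ξ}) → G ξ = ξ := by
    intro ξ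
    induction ξ using WellFoundedLT.induction with
    | ind ξ ih =>
      intro h
      push Not at h
      have h4 : G ξ ≤ ξ := not_lt.1 (h 0)
      rcases h4.eq_or_lt with h5 | h5
      · exact h5
      · refine absurd ?_ h5.ne
        apply hG
        refine ih (G ξ) h5 ?_
        rintro ⟨n, hn⟩
        exact h (n + 1) hn
  exact hξ (h3 ξ hcon)

theorem exists_fibres {I : Type} (hI : #I = ℵ₁) : ∃ t : I → ℕ, ∀ i, ¬ {η | t η = i}.Countable := by
  have h1 : #I = #(I × ℕ) := by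
    rw [mk_prod, hI]
    simp only [lift_id, mk_nat]
    rw [Cardinal.mul_aleph0_eq Cardinal.aleph0_lt_aleph_one.le]
  obtain ⟨E⟩ := Cardinal.eq.1 h1
  refine ⟨fun η => (E η).2, fun i hi => ?_⟩
  have h2 : Function.Injective fun η : I => E.symm (η, i) := fun η η' h =>
    congrArg Prod.fst (E.symm.injective h)
  have h3 := hi.preimage h2
  have h4 : (fun η : I => E.symm (η, i)) ⁻¹' {η | (E η).2 = i} = Set.univ := by
    ext η
    simp
  rw [h4, ← le_aleph0_iff_set_countable, mk_univ, hI] at h3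
  exact not_le.2 aleph0_lt_aleph_one h3

theorem exists_rigid (ω : ℝ → ℝ) (hω : Tendsto ω (𝓝[>] 0) (𝓝 0)) :
    ∃ A : Set ℝ, (∀ U : Set ℝ, IsOpen U → U.Nonempty → #(A ∩ U : Set ℝ) = ℵ₁) ∧
      ∀ f : A → A, Function.Injective f →
        (∃ t > 0, ∀ x y : A, x ≠ y → dist x y < t → dist (f x) (f y) ≤ ω (dist x y)) →
        ∀ x, f x = x := by
  have h1 : ∀ s : ℝ, ∃ d : ℝ, 0 < s → 0 < d ∧ ∀ t, 0 < t → t ≤ d → ω t < s / 2 := by
    intro s
    by_cases hs : 0 < s
    · have h2 : ∀ᶠ t in 𝓝[>] (0 : ℝ), ω t < s / 2 := hω.eventually_lt_const (by linarith)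
      obtain ⟨d, hd, h3⟩ := mem_nhdsGT_iff_exists_Ioo_subset.1 h2
      have hd : 0 < d := hd
      exact ⟨d / 2, fun _ => ⟨by linarith, fun t ht1 ht2 => h3 ⟨ht1, by linarith⟩⟩⟩
    · exact ⟨0, fun h => absurd h hs⟩
  choose δ hδ' using h1
  have hδ : ∀ t, 0 < t → 0 < δ t := fun t ht => (hδ' t ht).1
  obtain ⟨x, hx⟩ := exists_injective_bool
  obtain ⟨a, ha0, ha⟩ := exists_family x
  let R : W → ℝ := fun η => rl δ (a η).1
  have hRa : ∀ ξ η, R ξ = R η → (a ξ).1 = (a η).1 := fun ξ η h =>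
    rl_injective hδ (a ξ).2.2 (a η).2.2 h
  have hR : ∀ v : ℝ, {ξ | R ξ = v}.Countable := by
    intro v
    by_cases hv : ∃ ξ, R ξ = v
    · obtain ⟨ξ0, h0⟩ := hv
      refine ((countable_AE (x ξ0)).preimage hx).mono fun ξ hξ => ?_
      have h2 : (a ξ).1 = (a ξ0).1 := hRa ξ ξ0 ((show R ξ = v from hξ).trans h0.symm)
      obtain ⟨n, hn⟩ := eventually_atTop.1 ((ha0 ξ).and (ha0 ξ0))
      refine ⟨n + 1, fun i hi => ?_⟩
      obtain ⟨h3, h4⟩ := hn (i - 1) (by omega)
      rw [h2] at h3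
      have h5 : (x ξ i).toNat = (x ξ0 i).toNat := by
        rw [show i = i - 1 + 1 by omega]
        exact h3.symm.trans h4
      revert h5
      cases x ξ i <;> cases x ξ0 i <;> simp
    · have : {ξ | R ξ = v} = ∅ := by
        refine eq_empty_iff_forall_notMem.2 fun ξ h => hv ⟨ξ, h⟩
      rw [this]
      exact countable_empty
  -- representatives of the classes modulo the rational numbers
  let I : Set W := {η | ∀ ξ < η, ∀ q : ℚ, R ξ ≠ R η + q}
  have hI0 : ¬ I.Countable := by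
    intro hI
    refine not_countable_univ ((hI.biUnion fun η _ => countable_iUnion fun q : ℚ =>
      hR (R η + q)).mono fun ζ _ => ?_)
    have h2 : ∀ ζ : W, ∃ η ∈ I, ∃ q : ℚ, R ζ = R η + q := by
      intro ζ
      induction ζ using WellFoundedLT.induction with
      | ind ζ ih =>
        by_cases hζ : ζ ∈ I
        · exact ⟨ζ, hζ, 0, by simp⟩
        · have h3 : ∃ ξ < ζ, ∃ q : ℚ, R ξ = R ζ + q := by
            by_contra hcon
            push Not at hcon
            exact hζ hcon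
          obtain ⟨ξ, hξ, q, hq⟩ := h3
          obtain ⟨η, hη, q', hq'⟩ := ih ξ hξ
          refine ⟨η, hη, q' - q, ?_⟩
          push_cast
          linarith
    obtain ⟨η, hη, q, hq⟩ := h2 ζ
    exact mem_biUnion hη (mem_iUnion.2 ⟨q, hq⟩)
  have hI1 : #I = ℵ₁ := by
    refine le_antisymm ((mk_set_le I).trans mk_W.le) ?_
    by_contra hlt
    rw [not_le] at hlt
    apply hI0
    rw [← le_aleph0_iff_set_countable]
    have h6 : #I < Order.succ ℵ₀ := by
      rw [succ_aleph0]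
      exact hlt
    exact Order.lt_succ_iff.1 h6
  obtain ⟨t, ht⟩ := exists_fibres hI1
  obtain ⟨B, hB1, hB2, hB3⟩ := TopologicalSpace.exists_countable_basis ℝ
  have hBne : B.Nonempty := by
    obtain ⟨b, hb, -, -⟩ := hB3.exists_subset_of_mem_open (mem_univ (0 : ℝ)) isOpen_univ
    exact ⟨b, hb⟩
  obtain ⟨U, hU⟩ := hB1.exists_eq_range hBne
  have hU1 : ∀ i, IsOpen (U i) := fun i => hB3.isOpen (hU ▸ mem_range_self i)
  have hU2 : ∀ i, (U i).Nonempty := fun i => by
    rw [nonempty_iff_ne_empty]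
    intro h
    exact hB2 (h ▸ hU ▸ mem_range_self i)
  have hq : ∀ η : I, ∃ q : ℚ, R η + q ∈ U (t η) := by
    intro η
    obtain ⟨y, hy⟩ := hU2 (t η)
    have h2 : Continuous fun s : ℝ => R η + s := continuous_const.add continuous_id
    obtain ⟨q, hq⟩ := Rat.denseRange_cast.exists_mem_open ((hU1 (t η)).preimage h2)
      ⟨y - R η, by
        show R η + (y - R η) ∈ U (t η)
        rwa [add_sub_cancel]⟩
    exact ⟨q, hq⟩
  choose q hq using hq
  let b : I → ℝ := fun η => R η + q η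
  have hb : Function.Injective b := by
    have h2 : ∀ ξ η : I, ξ < η → b ξ ≠ b η := by
      intro ξ η hξ h
      refine η.2 ξ hξ (q η - q ξ) ?_
      have : R ξ + q ξ = R η + q η := h
      push_cast
      linarith
    intro ξ η h
    rcases lt_trichotomy ξ η with h3 | h3 | h3
    · exact absurd h (h2 ξ η h3)
    · exact h3
    · exact absurd h.symm (h2 η ξ h3)
  have hdense : ∀ V : Set ℝ, IsOpen V → V.Nonempty → ¬ (range b ∩ V).Countable := by
    rintro V hV ⟨y, hy⟩ hc
    obtain ⟨s, hs, -, hsV⟩ := hB3.exists_subset_of_mem_open hy hV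
    rw [hU] at hs
    obtain ⟨i, rfl⟩ := hs
    have h2 : {η | t η = i} ⊆ b ⁻¹' (range b ∩ V) := by
      intro η hη
      refine ⟨mem_range_self η, hsV ?_⟩
      have hη : t η = i := hη
      rw [← hη]
      exact hq η
    exact ht i ((hc.preimage hb).mono h2)
  refine ⟨range b, fun V hV hne => ?_, fun f hf hf' => ?_⟩
  · refine le_antisymm ((mk_le_mk_of_subset inter_subset_left).trans
      (mk_range_le.trans hI1.le)) ?_
    by_contra hlt
    rw [not_le] at hlt
    apply hdense V hV hne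
    rw [← le_aleph0_iff_set_countable]
    have h6 : #(range b ∩ V : Set ℝ) < Order.succ ℵ₀ := by
      rw [succ_aleph0]
      exact hlt
    exact Order.lt_succ_iff.1 h6
  obtain ⟨t0, ht0, hf0⟩ := hf'
  let pt : I → range b := fun η => ⟨b η, mem_range_self η⟩
  choose G hG using fun η : I => (f (pt η)).2
  have hGi : Function.Injective G := by
    intro ξ η h
    have h2 : f (pt ξ) = f (pt η) := by
      apply Subtype.ext
      rw [← hG ξ, ← hG η, h]
    exact hb (congrArg Subtype.val (hf h2))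
  obtain ⟨n0, hn0⟩ := exists_pow_lt_of_lt_one ht0 (show (1 / 8 : ℝ) < 1 by norm_num)
  have hZ : {ξ | ξ < G ξ}.Countable := by
    have h2 : ∀ ξ : I, ∃ k n, ξ < G ξ → ∀ m, n ≤ m → dcd k ((a (G ξ)).1 m) = (a ξ).1 (m + 1) := by
      intro ξ
      by_cases h : ξ < G ξ
      · obtain ⟨k, hk⟩ := ha ξ (G ξ) h
        obtain ⟨n, hn⟩ := eventually_atTop.1 hk
        exact ⟨k, n, fun _ => hn⟩
      · exact ⟨0, 0, fun h' => absurd h' h⟩
    choose k n hkn using h2
    let J : I → ℕ := fun ξ => max (n ξ) n0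
    let inv : I → ℕ × ℕ × ℚ × ℚ × List ℕ × List ℕ := fun ξ => (k ξ, J ξ, q ξ, q (G ξ),
      (List.range (J ξ + 1)).map (a ξ).1, (List.range (J ξ + 1)).map (a (G ξ)).1)
    refine Set.countable_of_injective_of_countable_image (f := inv) ?_ (to_countable _)
    intro ξ hξ ξ' hξ' h
    by_contra hne
    have hξ : ξ < G ξ := hξ
    have hξ' : ξ' < G ξ' := hξ'
    have e1 : k ξ = k ξ' := congrArg Prod.fst h
    have e2 : J ξ = J ξ' := congrArg (fun t => t.2.1) h
    have e3 : q ξ = q ξ' := congrArg (fun t => t.2.2.1) h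
    have e4 : q (G ξ) = q (G ξ') := congrArg (fun t => t.2.2.2.1) h
    have e5 : (List.range (J ξ + 1)).map (a ξ).1 = (List.range (J ξ' + 1)).map (a ξ').1 :=
      congrArg (fun t => t.2.2.2.2.1) h
    have e6 : (List.range (J ξ + 1)).map (a (G ξ)).1 = (List.range (J ξ' + 1)).map (a (G ξ')).1 :=
      congrArg (fun t => t.2.2.2.2.2) h
    rw [← e2] at e5 e6
    have e7 : ∀ i ≤ J ξ, (a ξ).1 i = (a ξ').1 i := fun i hi =>
      List.map_inj_left.1 e5 i (List.mem_range.2 (Nat.lt_succ_of_le hi))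
    have e8 : ∀ i ≤ J ξ, (a (G ξ)).1 i = (a (G ξ')).1 i := fun i hi =>
      List.map_inj_left.1 e6 i (List.mem_range.2 (Nat.lt_succ_of_le hi))
    have hbG : b (G ξ) ≠ b (G ξ') := fun h3 => hne (hGi (hb h3))
    have hdiff : ∃ m, (a (G ξ)).1 m ≠ (a (G ξ')).1 m := by
      by_contra hcon
      push Not at hcon
      apply hbG
      show R (G ξ) + q (G ξ) = R (G ξ') + q (G ξ')
      have : R (G ξ) = R (G ξ') := by
        show rl δ (a (G ξ)).1 = rl δ (a (G ξ')).1
        rw [funext hcon]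
      rw [this, e4]
    classical
    let m := Nat.find hdiff
    have hm1 : (a (G ξ)).1 m ≠ (a (G ξ')).1 m := Nat.find_spec hdiff
    have hm2 : ∀ j < m, (a (G ξ)).1 j = (a (G ξ')).1 j := fun j hj => by
      have := Nat.find_min hdiff hj
      push Not at this
      exact this
    have hJm : J ξ < m := by
      by_contra hlt
      exact hm1 (e8 m (not_lt.1 hlt))
    have hm3 : ∀ j ≤ m, (a ξ).1 j = (a ξ').1 j := by
      intro j hj
      rcases le_or_gt j (J ξ) with h3 | h3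
      · exact e7 j h3
      · obtain ⟨l, rfl⟩ : ∃ l, j = l + 1 := ⟨j - 1, by omega⟩
        have h4 := hkn ξ hξ l (le_trans (le_max_left _ _) (Nat.le_of_lt_succ h3))
        have h5 := hkn ξ' hξ' l (le_trans (le_max_left _ _) (e2 ▸ Nat.le_of_lt_succ h3))
        rw [← h4, ← h5, hm2 l (by omega), e1]
    have h6 := rl_close hδ (a ξ).2.2 (a ξ').2.2 m hm3
    have h7 := rl_far hδ (a (G ξ)).2.2 (a (G ξ')).2.2 m hm2 hm1
    have h8 := sc_pos hδ m
    have d1 : dist (pt ξ) (pt ξ') = |rl δ (a ξ).1 - rl δ (a ξ').1| := by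
      rw [Subtype.dist_eq, Real.dist_eq]
      show |R ξ + q ξ - (R ξ' + q ξ')| = |R ξ - R ξ'|
      rw [e3, add_sub_add_right_eq_sub]
    have d2 : dist (f (pt ξ)) (f (pt ξ')) = |rl δ (a (G ξ)).1 - rl δ (a (G ξ')).1| := by
      rw [Subtype.dist_eq, Real.dist_eq, ← hG ξ, ← hG ξ']
      show |R (G ξ) + q (G ξ) - (R (G ξ') + q (G ξ'))| = |R (G ξ) - R (G ξ')|
      rw [e4, add_sub_add_right_eq_sub]
    have hne' : pt ξ ≠ pt ξ' := fun h3 => hne (hb (congrArg Subtype.val h3))
    have d3 : 0 < dist (pt ξ) (pt ξ') := dist_pos.2 hne'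
    have h9 : min (δ (sc δ m)) (sc δ m) ≤ sc δ m := min_le_right _ _
    have h10 : min (δ (sc δ m)) (sc δ m) ≤ δ (sc δ m) := min_le_left _ _
    have h11 := hδ _ h8
    have h12 : sc δ m ≤ (1 / 8) ^ n0 := by
      have e9 := sc_le hδ m
      have e10 : ((1 : ℝ) / 8) ^ m ≤ (1 / 8) ^ n0 :=
        pow_le_pow_of_le_one (by norm_num) (by norm_num) ((le_max_right _ _).trans hJm.le)
      have e11 : (0 : ℝ) ≤ m := Nat.cast_nonneg m
      nlinarith
    have d4 : dist (pt ξ) (pt ξ') < t0 := by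
      rw [d1]
      linarith
    have d5 := hf0 _ _ hne' d4
    have d6 := (hδ' _ h8).2 _ d3 (by rw [d1]; linarith)
    rw [d2] at d5
    linarith
  have hfix := fixed_of_le G hGi hZ
  intro y
  by_contra hy
  have hε : 0 < dist (f y) y := dist_pos.2 hy
  have h2 := hδ _ hε
  have h3 := hdense (Ioo (y : ℝ) (y + min (min (δ (dist (f y) y)) t0) (dist (f y) y / 2)))
    isOpen_Ioo (nonempty_Ioo.2 (by
      have : 0 < min (min (δ (dist (f y) y)) t0) (dist (f y) y / 2) :=
        lt_min (lt_min h2 ht0) (by linarith)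
      linarith))
  obtain ⟨ξ, hξ1, hξ2⟩ : ∃ ξ : I, b ξ ∈ Ioo (y : ℝ) (y + min (min (δ (dist (f y) y)) t0)
      (dist (f y) y / 2)) ∧ G ξ = ξ := by
    by_contra hcon
    push Not at hcon
    refine h3 ((hfix.image b).mono ?_)
    rintro _ ⟨⟨ξ, rfl⟩, hξ⟩
    exact ⟨ξ, hcon ξ hξ, rfl⟩
  have h4 : f (pt ξ) = pt ξ := by
    apply Subtype.ext
    rw [← hG ξ, hξ2]
  have h5 : dist y (pt ξ) = b ξ - y := by
    rw [Subtype.dist_eq, Real.dist_eq, abs_sub_comm]
    exact abs_of_pos (sub_pos.2 hξ1.1)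
  have h6 : b ξ < y + min (min (δ (dist (f y) y)) t0) (dist (f y) y / 2) := hξ1.2
  have h7 : min (min (δ (dist (f y) y)) t0) (dist (f y) y / 2) ≤ min (δ (dist (f y) y)) t0 :=
    min_le_left _ _
  have h8 : min (δ (dist (f y) y)) t0 ≤ δ (dist (f y) y) := min_le_left _ _
  have h9 : min (δ (dist (f y) y)) t0 ≤ t0 := min_le_right _ _
  have h10 : min (min (δ (dist (f y) y)) t0) (dist (f y) y / 2) ≤ dist (f y) y / 2 :=
    min_le_right _ _
  have h11 : (y : ℝ) < b ξ := hξ1.1
  have hne : y ≠ pt ξ := fun h => by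
    rw [← h, dist_self] at h5
    linarith
  have h12 := hf0 y (pt ξ) hne (by rw [h5]; linarith)
  have h13 := (hδ' _ hε).2 (dist y (pt ξ)) (dist_pos.2 hne) (by rw [h5]; linarith)
  have h14 := dist_triangle (f y) (f (pt ξ)) y
  rw [h4] at h12 h14
  rw [dist_comm (pt ξ) y] at h14
  linarith

end Pool.Agent.Q212.PL
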